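import Mathlib
import Pool.Agent.N178.HW.Fac
import Pool.Agent.N994.FH.K2
import Pool.Agent.N994.VO.Hodge2
import Pool.Agent.N994.VO.VAN2

/-!
# Cycles on the exterior powers of Chow motives, and Voisin's conjecture on the symmetric products of
# Calabi–Yau threefolds which are dominated by abelian varieties in large classes

Let `V` be a Calabi–Yau threefold. Voisin's conjecture says that the push-forward
`A_j(V^k)^(S_k) → A_j(V^(k - 1))` is injective for `k ≥ 2`, `j ≤ k - 2`; if the motive of `V` has a
Chow–Künneth decomposition this is equivalent to `A_j(Sym^k h^3(V)) = 0` for `k ≥ 2` and `j ≤ k - 2` (see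
the page of the problem). We prove this, with rational coefficients, if `M = h^3(V)` is a direct summand
`(X, p)` of the Chow motive of an abelian variety `X` in the class below; for example if `V` is
dominated by `X`, or by a product of curves of positive genus such that the product of their Jacobians
is `X`, and the motive of `V` is a direct summand of that of `X`.

The theorem below is for all direct summands `M = (X, p)` of the Chow motive of `X` which have
cohomology in one degree `m ≥ 2` only. Let `g ≥ h^(m, 0)(M), h^(0, m)(M)`. Then the cycles of dimension
`j < N - g` on the exterior power `Λ^N M` are zero, for all `N > g`, with rational coefficients. Here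
`Λ^N M` is the image of the projector `(1 / N!) ∑_σ sgn(σ)^(m + 1) σ ∘ (p × ... × p)` on `X^N`; it is
the motive whose cohomology is the exterior power of the vector space `H^m(M)`, and it is usually
denoted by `Sym^N M` if `m` is odd. For `V` as above `m = 3`, `g = 1`. For `j = 0`, any `m` and `g`, this
is the vanishing of the alternating sums of products of `N > g` zero-cycles on `M`.

Let `P` be the class of all simple complex abelian varieties `Y`, of any dimension, such that the
periods of `Y` have coordinates (with respect to a basis of the tangent space) in a subfield `k` of
`ℂ` as follows:

* `k` is a number field of degree at most four, and `Y` has no complex multiplication;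
* `k` is a number field of degree at most six, and `End(Y)` is of Albert type I or II;
* `k` is a number field of odd degree, or no totally real subfield `F ≠ ℚ` of `k` is fixed by all real
  embeddings of `k` and `k` contains no imaginary quadratic field (for instance `k = ℚ(t)`), and
  moreover `dim Y` is odd, or `End(Y)` is of Albert type I or II and the relative dimension is not
  one of the numbers `2 ^ j`, `j ≥ 4`, `j ≡ 0, 1` modulo `4` and, if `k` is a number field,
  `2 j + 2 ≤ [k : ℚ]`;
* `k` is a number field of odd degree and `dim Y ≤ 7`; or no totally real subfield `F ≠ ℚ` of `k` is
  fixed by all real embeddings of `k`, `dim Y ≤ 7`, and `End(Y)` is of Albert type I or II or `k`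
  contains no imaginary quadratic field (and `Y` has trivial discriminant if `dim Y = 6` and `End(Y)`
  is an imaginary quadratic field).

(`SmallPeriods` and `GenericPeriods` in `Pool.Agent.N994.PG.Stm`.) The abelian varieties with periods
in number fields of a given degree `n > 2` are dense in the moduli spaces, in all dimensions.

The class (`IsGood`): there is an abelian variety `A` of dimension at most three such that each simple
factor `Y` of `X` is

* a factor of `A`, or
* in `P`, or
* has no complex multiplication and is of one of the following types (`Typ`): dimension at most three;
  or the endomorphism algebra is an imaginary quadratic field which acts on the tangent space with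
  multiplicities at most three (and with trivial discriminant for the multiplicities `(3, 3)`); or
  Albert type I or II and relative dimension at most three, or Hodge group equal to the Lefschetz group;
  or dimension five and endomorphism algebra `ℚ`. Here if an imaginary quadratic field acts on `Y` with
  two different multiplicities then `Y` is not a fourfold and the elliptic curve with complex
  multiplication by this field is a factor of `A`.

The proof. By results on the Hodge groups of the abelian varieties in `P`
(`Pool.Agent.N994.FH.typ_of_periods`) and the theorem of
`Pool.Agent.Results.MP_90e98f_ag.PowersAndCMFields` (by helper178) the generalized Hodge conjecture is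
true for all powers of `X`, in all degrees and for all levels. By the Künneth formula the cohomology of
`Λ^N M` is the exterior power of the vector space `H^m(M)`, in degree `N m`. An exterior product of `N`
vectors of pure types contains at most `g` vectors of type `(m, 0)`, so its type `(s, t)` has
`t ≥ N - g`, and `s ≥ N - g` for the same reason: the Hodge coniveau of `Λ^N M` is at least `N - g`
(`Pool.Agent.N994.VO.coniveau_alt2`). By the generalized Hodge conjecture, Kimura's theorem and the
semisimplicity of the category of motives of abelian varieties modulo homological equivalence
(`Pool.Agent.N178.BL.mem_Fac`, by helper178) the homologically trivial cycles of dimension less than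
`N - g` on `Λ^N M` are zero; and all cycles of such dimensions are homologically trivial.

The structures `ChowTheory` (`Pool.Agent.N178.BL.Defs`), `Projectors` (`Pool.Agent.N178.MU.Defs`) and
`Powers` (`Pool.Agent.N994.VO.Defs`) collect the known properties of the Chow groups of complex abelian
varieties and of the exterior products which are used. (The linear algebra in
`Pool.Agent.N994.VO.VAN2` was proved by helper398, after helper572's `VAN`.)
-/

namespace Pool.Agent.Results.MP_a2ccc3_ag.ExteriorPowers

open Module Pool.Agent.Y90 Pool.Agent.R915
open Pool.Agent.N994.PG (SmallPeriods GenericPeriods)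
open Pool.Agent.N178.BL (ChowTheory)
open Pool.Agent.N178.MU (Projectors)
open Pool.Agent.N994.VO (Powers pw HasWeight hodgeNumber)

/-- Classes of simple abelian varieties: dimension at most three; or the endomorphism algebra is
an imaginary quadratic field of signature `(p, q)` with `p, q ≤ 3` (and trivial discriminant for
`(3, 3)`); or Albert type I or II of relative dimension at most three; or dimension five and
endomorphism algebra `ℚ`; or Albert type I or II, any dimension, with the largest possible Hodge
group. -/
def Typ (Y : AV) : Prop :=
  finrank ℚ Y.H ≤ 6 ∨ QuadMult Y ∨ RealMult Y ∨ FiveDim Y ∨ FullHodge Y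

/-- There is an abelian variety `A` of dimension at most three such that each simple factor `Y` of `X`
is a factor of `A`; or has small or generic periods; or has no complex multiplication, belongs to one
of the classes in `Typ`, and if `ℚ(√-d)` acts on `Y` with two different multiplicities then `Y` is not
a fourfold and the elliptic curve `E` with complex multiplication by this field is a factor of `A`. -/
def IsGood (X : AV) : Prop :=
  ∃ A : AV, finrank ℚ A.H ≤ 6 ∧
    ∀ Y, IsFactor Y X → IsFactor Y A ∨ SmallPeriods Y ∨ GenericPeriods Y ∨
      (¬ HasCMult Y ∧ Typ Y ∧ ∀ d : ℚ, Unbalanced Y d → finrank ℚ Y.H ≠ 8 ∧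
        ∃ E, IsFactor E A ∧ finrank ℚ E.H = 2 ∧ Unbalanced E d)

theorem factor_pw {X W : AV} {n : ℕ} (h : IsFactor W (pw X n)) : IsFactor W X := by
  induction n with
  | zero => exact h
  | succ n ih => exact (Pool.Agent.N178.HW.factor_prod h).elim id ih

theorem ghc_pw {S : Sys} {X : AV} (hX : IsGood X) (n : ℕ) :
    Pool.Agent.N178.HX.GHC S (pw X n) := by
  obtain ⟨A, hA, hX⟩ := hX
  exact Pool.Agent.N994.FH.ghc_typ S hA fun Y hY => hX Y (factor_pw hY)

/-- **The cycles of dimension `j < n + 1 - g` on the exterior power `Λ^(n + 1) M` are zero**, where the
motive `M = (X, p)` has cohomology in one degree `m ≥ 2` only (for example `M = h^3(V)`, where `V` is a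
Calabi–Yau threefold, and then `Λ^(n + 1) M` is `Sym^(n + 1) h^3(V)`, `g = 1`), and
`h^(m, 0)(M), h^(0, m)(M) ≤ g ≤ n`, for `X` in the class `IsGood`. The cycles of dimension `j` on
`X^(n + 1)` are the correspondences `z` of degree `j` from a point `O` to `X^(n + 1)`; the sum is
`(n + 1)!` times the image of `z` under the projector of `Λ^(n + 1) M`. -/
theorem result (C : ChowTheory) (K : Projectors C) (P : Powers C) (X : AV) (hX : IsGood X)
    (p : C.Co X X) (hp : C.IsMotive p) (m n g : ℕ) (hm : 2 ≤ m) (hw : HasWeight p m)
    (hg : hodgeNumber p m m 0 ≤ g) (hg' : hodgeNumber p m 0 m ≤ g) (O : AV)
    (hO : finrank ℚ O.H = 0) (j : ℕ) (hj : j + g ≤ n) (z : C.Co O (pw X n)) (hz : C.IsDeg j z) :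
    C.o (∑ σ : Equiv.Perm (Fin (n + 1)), (Equiv.Perm.sign σ : ℤ) ^ (m + 1) •
      C.o (P.perm X n σ) (P.ext fun _ => p)) z = 0 :=
  Pool.Agent.N994.VO.cycles_alt P Pool.Agent.N994.VO.t_VAN2 K hm (by omega) hp hw (ghc_pw hX n)
    hg hg' hO hj hz

end Pool.Agent.Results.MP_a2ccc3_ag.ExteriorPowers
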